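import Pool.Agent.N882.UE.Cup
import Pool.Agent.N882.UE.Opn2

/-!
# MP_a9d3bd_ag: the conjecture BP(n) and systems of bilinear equations

`T : Motivic k` are data of motivic homology `H X i n = H_i^c(X, ℚ(n))` and of motivic cohomology
`C X i n = H^i_c(X, ℚ(n))` with compact supports of the schemes `X` over the finite field `k`, with the
pairing `H X i n × C X i n → ℚ`. `Perfect T X n`: the pairing is perfect for all `i`. `IsMotivic T`
lists the known properties which are used. `FT True X`: `X` is separated and of finite type over `k`.

`bilS t` is the closed subscheme of the affine space given by the bilinear equations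
`∑ t_ijl x_i y_j = 0`, `l = 1, …, c`; `sysS k E` is given by `∑_{(i, j) ∈ E_l} x_i y_j = 0`; `opnS f` is
the principal open subscheme `f_1 ⋯ f_r ≠ 0` of the affine space, `bform t l = ∑ t_ijl x_i y_j` and
`few k E = ∑_{(i, j) ∈ E} x_i y_j`; `hypS t` is the affine cubic hypersurface `∑ t_ijl x_i y_j z_l = 1`
and `tripS k H` is the hypersurface `∑_{(i, j, l) ∈ H} x_i y_j z_l = 1`.
-/

set_option autoImplicit false

open CategoryTheory AlgebraicGeometry Pool.Agent.Y116.UV Pool.Agent.N882.UE Pool.Agent.Q282.UK
  Pool.Agent.Q282.UZ

namespace Pool.Agent.Results.MP_a9d3bd_ag.BilinearSystems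

/-- `BP(n)` over `k`: the pairings `H^i(X, ℚ(n)) × H^{2d-i}(X, ℚ(d-n)) → ℚ` are perfect for all smooth
proper schemes `X` of pure dimension `d` over `k` and all `i` (for these schemes `H^{2d-i}(X, ℚ(d-n))` is
`H_i^c(X, ℚ(n))`, and `H^i(X, ℚ(n))` is `H^i_c(X, ℚ(n))`). -/
def BP {k : Type} [Field k] (T : Motivic k) (n : ℤ) : Prop :=
  ∀ (d : ℕ) (X : Sch k), SmoothOfRelativeDimension d X.hom → IsProper X.hom → Perfect T X n

/-- The pairings are perfect, for all twists `n`, for all separated schemes of finite type of dimension
at most `d`. -/
def AllDim {k : Type} [Field k] (T : Motivic k) (d : ℕ) : Prop :=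
  ∀ X : Sch k, FT True X → topologicalKrullDim X.left ≤ d → ∀ n, Perfect T X n

/-- The same for the smooth schemes. -/
def SmoothDim {k : Type} [Field k] (T : Motivic k) (d : ℕ) : Prop :=
  ∀ X : Sch k, FT True X → Smooth X.hom → topologicalKrullDim X.left ≤ d → ∀ n, Perfect T X n

/-- The pairings are perfect, for all twists, for the hypersurfaces `t(x, y, z) = 1` of all trilinear
forms `t` over `k` such that one of the three blocks of variables has at most `m` variables. -/
def Hypersurfaces {k : Type} [Field k] (T : Motivic k) (m : ℕ) : Prop :=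
  ∀ (a b c : ℕ) (t : Fin a → Fin b → Fin c → k), (a ≤ m ∨ b ≤ m ∨ c ≤ m) →
    ∀ n, Perfect T (hypS t) n

/-- The pairings are perfect, for all twists, for all systems of at most `m` bilinear equations. -/
def Systems {k : Type} [Field k] (T : Motivic k) (m : ℕ) : Prop :=
  ∀ (a b c : ℕ) (t : Fin a → Fin b → Fin c → k), c ≤ m → ∀ n, Perfect T (bilS t) n

/-- **Theorem.** Let `T` be motivic homology and cohomology with compact supports of the schemes over the
finite field `k`. It is known that the pairings are perfect in dimension at most one (`curves`), and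
that they are perfect for all separated schemes of finite type if they are perfect for the smooth
projective ones (`reduction`).
(1) For every `n` the following are equivalent: `BP(n)` over `k`; the pairings with twist `n` are perfect
for all separated schemes of finite type; they are perfect for the closed subschemes of affine spaces
given by bilinear equations; they are perfect for the principal open subschemes of affine spaces given
by products of bilinear forms.
(2) If `k` is a prime field, the same is true with bilinear forms which have coefficients `1` and at most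
three terms.
(3) For every `d` the following are equivalent: the pairings are perfect, for all twists, for all
separated schemes of dimension at most `d`; for the smooth ones; for the smooth hypersurfaces
`t(x, y, z) = 1` of the trilinear forms with a block of at most `d + 2` variables; for the systems of at
most `d + 2` bilinear equations.
(4) They are perfect for the hypersurfaces with a block of at most three variables, and for the systems
of at most three bilinear equations in any number of variables.
(5) If `k` is a prime field, `BP(n)` is true over `k` for all `n` if and only if the pairings are perfect,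
for all twists, for the hypersurfaces `∑_{(i, j, l) ∈ H} x_i y_j z_l = 1` of the finite sets `H`. -/
theorem result {k : Type} [Field k] [Finite k] (T : Motivic k) (hT : IsMotivic T)
    (curves : ∀ X : Sch k, FT True X → topologicalKrullDim X.left ≤ 1 → ∀ n, Perfect T X n)
    (reduction : ∀ n, BP T n → ∀ X : Sch k, FT True X → Perfect T X n) :
    (∀ n : ℤ, [BP T n, (∀ X : Sch k, FT True X → Perfect T X n),
      (∀ (a b c : ℕ) (t : Fin a → Fin b → Fin c → k), Perfect T (bilS t) n),
      (∀ (a b r : ℕ) (t : Fin a → Fin b → Fin r → k), Perfect T (opnS (bform t)) n)].TFAE) ∧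
    ((Nat.card k).Prime → ∀ n : ℤ, [BP T n,
      (∀ (a b c : ℕ) (E : Fin c → Finset (Fin a × Fin b)), (∀ l, (E l).card ≤ 3) →
        Perfect T (sysS k E) n),
      (∀ (a b r : ℕ) (E : Fin r → Finset (Fin a × Fin b)), (∀ l, (E l).card ≤ 3) →
        Perfect T (opnS fun l => few k (E l)) n)].TFAE) ∧
    (∀ d : ℕ, (AllDim T d ↔ SmoothDim T d) ∧ (AllDim T d ↔ Hypersurfaces T (d + 2)) ∧
      (AllDim T d ↔ Systems T (d + 2))) ∧
    (Hypersurfaces T 3 ∧ Systems T 3) ∧
    ((Nat.card k).Prime → ((∀ n, BP T n) ↔
      ∀ (a b c : ℕ) (H : Finset (Fin a × Fin b × Fin c)) (n : ℤ), Perfect T (tripS k H) n)) := by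
  have h1 : ∀ n, Perfect T (aff k k) n := by
    refine curves _ (ft_aff True) ?_
    rw [Pool.Agent.Z125.UN.topDim_aff, ringKrullDim_eq_zero_of_field]
    exact zero_le_one
  have hB := bnd_perfect hT h1
  have c1 : AllDim T 1 := fun X hX hd => curves X hX (by exact_mod_cast hd)
  have hBP : ∀ n, (BP T n ↔ ∀ X : Sch k, FT True X → Perfect T X n) := by
    intro n
    refine ⟨reduction n, fun h d X _ hX => h X ⟨?_, ?_, fun _ => ?_⟩⟩
    · infer_instance
    · infer_instance
    · infer_instance
  have key : ∀ d : ℕ, (AllDim T d ↔ SmoothDim T d) ∧ (AllDim T d ↔ Hypersurfaces T (d + 2)) ∧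
      (AllDim T d ↔ Systems T (d + 2)) := by
    intro d
    refine ⟨?_, Pool.Agent.Q193.LT.dim_iff hB d, dim_bil hB d⟩
    have h2 : AllDim T d ↔ Hypersurfaces T (d + 2) := Pool.Agent.Q193.LT.dim_iff hB d
    have h3 : SmoothDim T d ↔ Hypersurfaces T (d + 2) := Pool.Agent.Q193.LT.smooth_iff hB d
    rw [h2, h3]
  refine ⟨fun n => ?_, fun hp n => ?_, key, ⟨(key 1).2.1.mp c1, (key 1).2.2.mp c1⟩, fun hp => ?_⟩
  · have hC := clo_perfect hT n
    tfae_have 1 ↔ 2 := hBP n
    tfae_have 2 → 3 := fun h a b c t => h _ (ft_aff True)
    tfae_have 3 → 2 := fun h X hX =>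
      clo_universal (S := Set.univ) hC.toClo trivial trivial (fun a b c t _ => h a b c t)
        presents_univ X hX
    tfae_have 2 ↔ 4 := opens_bil hC
    tfae_finish
  · have hC := clo_perfect hT n
    have hS := short_presents (int_surj hp)
    tfae_have 1 ↔ 2 := (hBP n).trans (three_iff hS hC.toClo)
    tfae_have 1 ↔ 3 := (hBP n).trans (opens_few hS hC)
    tfae_finish
  · constructor
    · intro h a b c H n
      exact (hBP n).mp (h n) _ (ft_aff True)
    · intro h n
      rw [hBP n]
      intro X hX
      exact Pool.Agent.Q193.LT.universal_frac (frac_of_prime hp) hB.toUni h X hX n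

end Pool.Agent.Results.MP_a9d3bd_ag.BilinearSystems
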