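import Pool.Agent.N876.CG.PairT
import Pool.Agent.W484.CK.Main

/-!
# Perfectness of the motivic pairings of products with cyclic coverings branched along hyperplanes

Let `κ` be a finite field with `q = c ^ f` elements, and `𝒱` a class of smooth projective varieties over
`κ`, closed under products, with Chow groups `A` with rational coefficients and a Weil cohomology theory
`H` (framework of helper492 and helper484: `TheoryData`, `IsChow`, `IsWeil`). Let `X_i` be varieties in
`𝒱`, of any dimensions `n_i`, which are models of cyclic coverings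

  `w ^ N_i = ∏ l_{i,k} (x) ^ a_{i,k}`

of projective spaces, branched along hyperplanes `l_{i,k} = 0` over `κ`, with exponents prime to `N_i`,
where `N_i` divides `q - 1` (`IsModel`, see the definitions: the cohomology is generated by the
classes of cycles and a part `T`, pure of weight `n_i`, without invariants under the covering
group, for which the trace formula holds). Let `N` be a common multiple of the `N_i`, and `λ` an
integer such that `IsSmall N λ` holds: for every nonempty finite set `I` of indices and all `j_i` not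
divisible by `N_i` (`i ∈ I`) there is a `u` prime to `N` with
`∑_{i ∈ I} weight X_i (u j_i) + λ / 2 < ∑_{i ∈ I} (n_i / 2 + 1)`; here `weight X j` is the mean over the
orbit `j, c j, …, c ^ (f - 1) j` of the sum of the fractional parts of `j a_k / N_i`.

Let `U` be **any** separated scheme of finite type over `κ` (open, or singular; for example a point), and
`Z` a variety in `𝒱` (for example a point). Fix integers `m` and `e ≥ dim U`. For `X` in `𝒱` let
* `T^a(X) = H^c_i(X × U, ℚ(n))`, the motivic homology with compact supports of the question, where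
  `n = dim X + e - a` and `i = 2 n + m`;
* `R^n(X) = H_c^i(X × U, ℚ(n))`, the motivic cohomology with compact supports, `i = 2 n + m`;
* `cup` the pairing `H^c_i(X × U, ℚ(n)) × H_c^i(X × U, ℚ(n)) → ℚ` between `T^(dim X + e - n)(X)` and
  `R^n(X)`, the composition `Hom(ℚ(n)[i], M) × Hom(M, ℚ(n)[i]) → ℚ`, `M = M^c(X × U)`;
* `φT`, `φR` the endomorphisms `q ^ e (Fr_U)_*^(-1)` and `(Fr_U)^*`, where `Fr_U` is the Frobenius
  endomorphism of `U`.
Since `M^c(X × U) = M(X) ⊗ M^c(U)`, the correspondences between the varieties in `𝒱` act on `T` and on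
`R`, the actions of a correspondence and of its transpose are adjoint to each other (`IsAdjoint`), and
since the Frobenius endomorphism of `X × U` acts on `ℚ(n)` as `q ^ n`, the product of the pull-back by the
Frobenius endomorphism of `X` with `φT`, `φR` is `q ^ a` on `T^a(X)` and `q ^ n` on `R^n(X)`. These
are the only properties of `T`, `R` and of the pairing which are used (`IsRelative`, `IsAdjoint`).
Let `χ` be a polynomial with rational coefficients with `χ (φT) = 0` and `χ (φR) = 0`. Such a polynomial
exists if `M^c(U)` is in the thick triangulated category generated by the motives of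
products of curves, and then its roots can be taken to be the eigenvalues `α` of the Frobenius on
`H_c(U)` and the numbers `q ^ e / α`; examples are all varieties `U` with a stratification by open
subvarieties of varieties dominated by products of curves whose complements are again of this type. We
assume that the products `b` of the eigenvalues of the Frobenius on `H(Z)` and the complex roots of `χ`
are of the form `|b| ^ 2 = q ^ j` (theorem of Deligne) and that
* either `λ = 0` and the cyclotomic polynomial of order `N` is irreducible over the field generated by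
  the numbers `b` (for given `Z` and `U` this is true for all `N` prime to the discriminant of this field),
* or `Z × U` is of level `≤ λ`: the numbers `q ^ λ b / b̄` are algebraic integers. This is true if
  `dim Z + dim U ≤ λ`.
Finally the homologically trivial self-correspondences of degree zero of the products `V` of the `X_i`
and `Z` are assumed to be nilpotent (nothing of this kind is assumed for `U`); this holds if `Z` is a
point (or dominated by a product of curves) and the `X_i` are curves or have `n_i + 2` branch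
hyperplanes in general position, by the theorem of Kimura and O'Sullivan.

**Theorem.** Let `V` be the product of `Z` and of finitely many of the `X_i` (pairwise different), and
`d = dim V - dim Z`.
* For every `n` (and `i = 2 n + m`) **the pairing
  `H^c_i(V × U, ℚ(n)) × H_c^i(V × U, ℚ(n)) → ℚ` is perfect if and only if the pairings
  `H^c_{2l+m}(Z × U, ℚ(l)) × H_c^{2l+m}(Z × U, ℚ(l)) → ℚ` with `n - d ≤ l ≤ n` are perfect**.
  For `U` a point these are the pairings of Q1.
* If `V = X_i × V'`, then there are finitely many algebraic cycles `D j`, `E j` on `X_i`, which do not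
  depend on `U`, `m` or `e`, such that `T(V)` is the direct sum of the `D j × T(V')`, `R(V)` is the
  direct sum of the `E j × R(V')`, and `⟨D i × t, E j × r⟩` is `⟨t, r⟩` if `i = j` and `0` if
  `i ≠ j`, for all theories as above: the pairing is an orthogonal sum of pairings of `V' × U`.

In particular: `BP(n)` holds for `V × U` (in all weights) if and only if it holds for `Z × U`.
Taking `Z` a point: if `U` is a scheme such that `BP` holds for `U` (in all weights), for example a
smooth curve, then the pairings of `V × U` are perfect for all products `V` of the `X_i`.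

Examples. (a) Let `X_i` be curves `y ^ N_i = ∏ (x - x_{i,k})` with `N_i` factors, of genus
`(N_i - 1) (N_i - 2) / 2`, for different prime numbers `N_i` dividing `c - 1`. Then `weight X_i j` is the
residue of `j` modulo `N_i`, and `IsSmall N 0` holds for the product `N` of the `N_i` (take `u` with
`u j_i = 1` modulo `N_i`). (b) Let `X` be the variety `w ^ N = l_1 ⋯ l_N` of dimension `n = N - 2`, with
`N` hyperplanes in general position, for a prime number `N` dividing `c - 1` (the resolutions are
Calabi-Yau varieties). The weight for `u j = 1` is `1`, so `IsSmall N λ` holds for all `λ < n`: the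
theorem applies to **all schemes `U` of dimension smaller than `dim X`** with a polynomial `χ`.

The proof: by the theorem of Stickelberger on Gauss sums and the product formula no product of
eigenvalues of the Frobenius on the parts `T` of several `X_i` and on the cohomology of `Z × U` is a
power of `q`. So the intersection pairing on the algebraic classes of `X_i` is not degenerate; let
`D j`, `E j` be dual systems of cycles on `X_i`, `p = ∑ E j × D j` the projector on `X_i × V'`, `P` a
polynomial with `P (F) H(X_i × V') ⊆ ∑ D j × H(V')`, and `Q (x)` the polynomial with the roots `q ^ n / ρ`,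
where `χ (ρ) = 0`. Then `(1 - p) P (F)` is homologically trivial, hence nilpotent; a power of `Q (F)`
is zero on `T^n(X_i × V')`, and `P` and `Q` are prime to each other, so `1 - p` is zero on
`T^n(X_i × V')` (the idea to play the eigenvalues of Frobenius off against nilpotence is due to Soulé,
Geisser and Kahn). The same is true for `R` and the transposed projector, and the two decompositions
are dual to each other because of the adjunction.

helper876; built on the library of the starting files (estimates of sums over hyperplane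
arrangements by Gauss sums: helper528 and helpers 800, 883, 135, 563, 271, 540, 400, 999, 782, 605,
346; traces on eigenspaces: helper117; correspondences, nilpotence and the Kunneth formula: helpers
484, 492, 550; the idea to work relative to a scheme: helper156).
-/

set_option autoImplicit false

open Finset Polynomial CategoryTheory AlgebraicGeometry

namespace Pool.Agent.Results.MP_a9d3bd_ag.HyperplaneCoverings

open Pool.Agent.H914 Pool.Agent.H914.VarClass Pool.Agent.H914.VarClass.Obj Pool.Agent.W492.BB
  Pool.Agent.W484.CK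

/-- A cyclic covering `w ^ N = ∏ l_k (x) ^ a_k` of the projective space of dimension `n`, and a root of
unity `z`. -/
structure Covering (κ : Type) [Field κ] : Type where
  N : ℕ
  n : ℕ
  s : ℕ
  l : Fin s → Fin (n + 1) → κ
  a : Fin s → ℕ
  z : κ

/-- `z` has order `N ≥ 2`, the exponents are prime to `N` and their sum is divisible by `N`. -/
structure Covering.IsAdmissible {κ : Type} [Field κ] (X : Covering κ) : Prop where
  two_le : 2 ≤ X.N
  root : IsPrimitiveRoot X.z X.N
  coprime : ∀ k, (X.a k).Coprime X.N
  dvd : X.N ∣ ∑ k, X.a k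

/-- The value of the form `∏ l_k ^ a_k` at a vector with coordinates in `L`. -/
def Covering.value {κ : Type} [Field κ] (X : Covering κ) (L : Type) [Field L] [Algebra κ L]
    (x : Fin (X.n + 1) → L) : L :=
  ∏ k, (∑ t, algebraMap κ L (X.l k t) * x t) ^ X.a k

/-- The number of vectors over `L` where the form is not zero. -/
noncomputable def Covering.openCount {κ : Type} [Field κ] (X : Covering κ) (L : Type) [Field L]
    [Algebra κ L] : ℕ :=
  Set.ncard {x : Fin (X.n + 1) → L | X.value L x ≠ 0}

/-- The number of vectors over `L` where the form is not zero and its power with the exponent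
`(|L| - 1) / N` is `z ^ i`. -/
noncomputable def Covering.fixCount {κ : Type} [Field κ] (X : Covering κ) (L : Type) [Field L]
    [Fintype L] [Algebra κ L] (i : ℕ) : ℕ :=
  Set.ncard {x : Fin (X.n + 1) → L | X.value L x ≠ 0 ∧
    (X.value L x) ^ ((Fintype.card L - 1) / X.N) = algebraMap κ L X.z ^ i}

/-- `T` is the part without invariants of the cohomology of degree `n` of a smooth projective model
of the covering, with the Frobenius `Φ` and the generator `g` of the covering group. The trace
of `Φ ^ [L : κ] g ^ i` is up to the sign the difference of the number of fixed points over the open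
set `∏ l_k ≠ 0` of projective space (`N` points over each point where the form has the power residue
symbol `z ^ i`) and of the number of the points of this open set. -/
structure IsCyclicCovering {κ : Type} [Field κ] (X : Covering κ) {K T : Type} [Field K]
    [AddCommGroup T] [Module K T] (Φ g : Module.End K T) : Prop where
  commute : Commute Φ g
  order : g ^ X.N = 1
  invariants : ∀ t, g t = t → t = 0
  lefschetz : ∀ (L : Type) [Field L] [Fintype L] [Algebra κ L] (i : ℕ),
    ((Fintype.card L : K) - 1) *
        ((-1) ^ X.n * LinearMap.trace K T (Φ ^ Module.finrank κ L * g ^ i)) =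
      (X.N : K) * (X.fixCount L i : K) - (X.openCount L : K)

/-- The mean over `j, c j, …, c ^ (f - 1) j` of the sum of the fractional parts of `j a_k / N`. -/
def Covering.weight {κ : Type} [Field κ] (X : Covering κ) (c f j : ℕ) : ℚ :=
  (∑ k, ∑ t ∈ range f, (((j * X.a k * c ^ t) % X.N : ℕ) : ℚ)) / (f * X.N)

/-- The condition on the exponents. -/
def IsSmall {κ : Type} [Field κ] {ι : Type} (X : ι → Covering κ) (c f N lam : ℕ) : Prop :=
  ∀ I : Finset ι, I.Nonempty → ∀ j : ι → ℕ, (∀ i ∈ I, ¬ (X i).N ∣ j i) →
    ∃ u : ℕ, u.Coprime N ∧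
      ∑ i ∈ I, (X i).weight c f (u * j i) + (lam : ℚ) / 2 < ∑ i ∈ I, (((X i).n : ℚ) / 2 + 1)

/-- The space `H` is generated by the subspace `P` (the classes of algebraic cycles) and a subspace `T`
which is stable under `Φ` (the Frobenius) and `g` (a generator of the covering group), `T` is the part
without invariants (`IsCyclicCovering`), and pure of weight `n`. The complex numbers enter by an
embedding `τ` of the coefficient field. -/
def IsCoveringCohomology {κ : Type} [Field κ] [Fintype κ] (C : Covering κ) {K H : Type} [Field K]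
    [AddCommGroup H] [Module K H] (P : Submodule K H) (Φ g : Module.End K H) (τ : K →+* ℂ) : Prop :=
  ∃ (T : Submodule K H) (hΦ : ∀ t ∈ T, Φ t ∈ T) (hg : ∀ t ∈ T, g t ∈ T), P ⊔ T = ⊤ ∧
    IsCyclicCovering C (Φ.restrict hΦ) (g.restrict hg) ∧
    ∀ α, Module.End.HasEigenvalue (Φ.restrict hΦ) α → ‖τ α‖ ^ 2 = (Fintype.card κ : ℝ) ^ C.n

/-- The images of the eigenvalues of `Φ` under the embedding `τ` of the coefficient field. -/
def eigenvalues {K H : Type} [Field K] [AddCommGroup H] [Module K H] (Φ : Module.End K H)
    (τ : K →+* ℂ) : Set ℂ :=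
  {b | ∃ β : K, Φ.HasEigenvalue β ∧ τ β = b}

/-- The conditions on a set `B` of complex numbers: they are algebraic with `|b| ^ 2 = q ^ j`, and
either `lam = 0` and the cyclotomic polynomial of order `N` is irreducible over the field generated
by `B`, or `B` is of level at most `lam`. -/
def IsGoodBase (q N lam : ℕ) (B : Set ℂ) : Prop :=
  (∀ b ∈ B, IsAlgebraic ℚ b ∧ ∃ j : ℕ, ‖b‖ ^ 2 = (q : ℝ) ^ j) ∧
    ((lam = 0 ∧ Irreducible (cyclotomic N (IntermediateField.adjoin ℚ B))) ∨
      ∀ b ∈ B, IsIntegral ℤ ((q : ℂ) ^ lam * b / starRingEnd ℂ b))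

/-- An endomorphism of an algebra as a linear map. -/
def ofHom {K H : Type} [Field K] [Ring H] [Algebra K H] (g : H →ₐ[K] H) : Module.End K H :=
  g.toLinearMap

/-- `IsCoveringCohomology` for endomorphisms of an algebra. -/
def IsCoveringAlgebra {κ : Type} [Field κ] [Fintype κ] (C : Covering κ) {K H : Type} [Field K]
    [Ring H] [Algebra K H] (P : Submodule K H) (φ g : H →ₐ[K] H) (τ : K →+* ℂ) : Prop :=
  IsCoveringCohomology C P (ofHom φ) (ofHom g) τ

/-- The images of the eigenvalues of an endomorphism of an algebra. -/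
def eigenvaluesOf {K H : Type} [Field K] [Ring H] [Algebra K H] (φ : H →ₐ[K] H) (τ : K →+* ℂ) :
    Set ℂ :=
  eigenvalues (ofHom φ) τ

/-- The images under `τ` of the products of the eigenvalues of an endomorphism of an algebra and
the roots of the polynomial `χ`. -/
def productsOf {K H : Type} [Field K] [CharZero K] [Ring H] [Algebra K H] (φ : H →ₐ[K] H)
    (χ : ℚ[X]) (τ : K →+* ℂ) : Set ℂ :=
  {b | ∃ β ρ : K, (ofHom φ).HasEigenvalue β ∧ aeval ρ χ = 0 ∧ τ (β * ρ) = b}

/-- The field `κ` has `c ^ f` elements, the coverings are admissible, `N` is a common multiple of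
their degrees, and `IsSmall` holds. -/
structure IsSmallSystem {κ : Type} [Field κ] [Fintype κ] {ι : Type} (C : ι → Covering κ)
    (c f N lam : ℕ) : Prop where
  card : Fintype.card κ = c ^ f
  admissible : ∀ i, (C i).IsAdmissible
  pos : 0 < N
  dvd : ∀ i, (C i).N ∣ N
  small : IsSmall C c f N lam

section geometry

variable {κ : Type} [Field κ] {𝒱 : VarClass κ} {A : TheoryData.{0, 0, 0} 𝒱 ℚ} {K : Type} [Field K]

/-- The span of the classes of cycles on `X`. -/
def cycleSpan (H : WeilTheoryData.{0, 0, 0} A K) (X : 𝒱.Obj) : Submodule K (H.A X) :=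
  Submodule.span K {a | ∃ (i : ℕ) (z : A.A X), A.Deg i z ∧ a = H.cl z}

/-- `X`, with the Frobenius endomorphism `φ`, is a model of the covering `C`, with a generator `g` of
the covering group. -/
def IsModel [Fintype κ] (C : Covering κ) (H : WeilTheoryData.{0, 0, 0} A K) {X : 𝒱.Obj}
    (φ : X ⟶ X) (τ : K →+* ℂ) : Prop :=
  ∃ g : X ⟶ X, IsCoveringAlgebra C (cycleSpan H X) (H.pull φ) (H.pull g) τ

/-- There is a divisor on `X` whose power with the exponent `dim X` is not zero in the cohomology. -/
def IsPolarized (H : WeilTheoryData.{0, 0, 0} A K) (X : 𝒱.Obj) : Prop :=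
  ∃ D : A.A X, A.Deg 1 D ∧ H.cl D ^ X.dim ≠ 0

/-- The product `X i₁ × (X i₂ × (⋯ × Z))`. -/
noncomputable def productOf {ι : Type} (X : ι → 𝒱.Obj) (Z : 𝒱.Obj) : List ι → 𝒱.Obj
  | [] => Z
  | i :: L => (X i).prod (productOf X Z L)

/-- The sum of the dimensions of the `X i`. -/
def dimension {ι : Type} (X : ι → 𝒱.Obj) : List ι → ℕ
  | [] => 0
  | i :: L => (X i).dim + dimension X L

/-- `F` is the Frobenius endomorphism of the varieties over `κ`, the varieties `X i` are models of the
coverings, and `Z` and the polynomial `χ` satisfy `IsGoodBase`. -/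
structure IsCoveringSystem [Fintype κ] [CharZero K] {ι : Type} (C : ι → Covering κ) (N lam : ℕ)
    (H : WeilTheoryData.{0, 0, 0} A K) (τ : K →+* ℂ) (F : ∀ X : 𝒱.Obj, X ⟶ X) (X : ι → 𝒱.Obj)
    (Z : 𝒱.Obj) (χ : ℚ[X]) : Prop where
  standard : IsStandard H
  frobenius : ∀ X, IsFrobenius A (F X) (Fintype.card κ)
  product : ∀ X Y, F (X.prod Y) = prodMap (F X) (F Y)
  model : ∀ i, IsModel (C i) H (F (X i)) τ
  polarized : ∀ i, IsPolarized H (X i)
  algebraic : ∀ b ∈ eigenvaluesOf (H.pull (F Z)) τ, IsAlgebraic ℚ b
  ne_zero : χ.coeff 0 ≠ 0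
  base : IsGoodBase (Fintype.card κ) N lam (productsOf (H.pull (F Z)) χ τ)

/-- The operation of the Frobenius endomorphism of `X` on the theory `T`. -/
noncomputable def frobOn (T : MotivicData A) (F : ∀ X : 𝒱.Obj, X ⟶ X) (X : 𝒱.Obj) (t : T.M X) :
    T.M X :=
  T.app (A.down (Obj.lift (F X) (𝟙 X)) 1) t

/-- The maps `φ` commute with the operation of correspondences. -/
def IsCommuting (T : MotivicData A) (φ : ∀ X, T.M X →ₗ[ℚ] T.M X) : Prop :=
  ∀ {X Y : 𝒱.Obj} (Γ : A.A (X.prod Y)) (t : T.M X), φ Y (T.app Γ t) = T.app Γ (φ X t)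

/-- The product of `φ` and the Frobenius endomorphism of `X` is `q ^ n` on `T^n(X)`. -/
def IsPower (T : MotivicData A) (φ : ∀ X, T.M X →ₗ[ℚ] T.M X) (F : ∀ X : 𝒱.Obj, X ⟶ X) (q : ℕ) :
    Prop :=
  ∀ {X : 𝒱.Obj} {n : ℤ} {t : T.M X}, T.Deg n t → frobOn T F X (φ X t) = (q : ℚ) ^ n • t

/-- `χ (φ) t = 0`. -/
def IsKilled {M : Type} [AddCommGroup M] [Module ℚ M] (φ : M →ₗ[ℚ] M) (χ : ℚ[X]) (t : M) : Prop :=
  aeval φ χ t = 0

/-- `T` is a theory with correspondences with an endomorphism `φ` (the Frobenius endomorphism of a
scheme `U`) such that `φ` commutes with correspondences, and on `T^n(X)` the product of `φ` and the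
Frobenius endomorphism of `X` is `q ^ n` and `χ (φ)` is zero. -/
structure IsRelative (T : MotivicData A) (φ : ∀ X, T.M X →ₗ[ℚ] T.M X) (F : ∀ X : 𝒱.Obj, X ⟶ X)
    (q : ℕ) (χ : ℚ[X]) : Prop where
  motivic : IsMotivic T
  comm : IsCommuting T φ
  power : IsPower T φ F q
  root : ∀ {X : 𝒱.Obj} {n : ℤ} {t : T.M X}, T.Deg n t → IsKilled (φ X) χ t

/-- Pairings between `T (X)` and `R (X)`. -/
abbrev Pairing (T R : MotivicData A) : Type 1 :=
  ∀ X : 𝒱.Obj, T.M X →ₗ[ℚ] R.M X →ₗ[ℚ] ℚ

/-- The transpose of a correspondence. -/
noncomputable def transpose {X Y : 𝒱.Obj} (Γ : A.A (X.prod Y)) : A.A (Y.prod X) :=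
  A.down (Obj.lift (snd X Y) (fst X Y)) Γ

/-- The operations of a correspondence and of its transpose are adjoint to each other. -/
def IsAdjoint {T R : MotivicData A} (cup : Pairing T R) : Prop :=
  ∀ {X Y : 𝒱.Obj} (Γ : A.A (X.prod Y)) (t : T.M X) (r : R.M Y),
    cup Y (T.app Γ t) r = cup X t (R.app (transpose Γ) r)

/-- The pairing between `T^(dim X + e - n)(X)` and `R^n(X)` is perfect. -/
def IsPerfectIn {T R : MotivicData A} (cup : Pairing T R) (e : ℤ) (X : 𝒱.Obj) (n : ℤ) : Prop :=
  ((cup X).domRestrict₁₂ (T.gr X (X.dim + e - n)) (R.gr X n)).IsPerfPair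

/-- The product of the class `D` on `X` and of the element `t` of `T (V)`. -/
noncomputable def times (T : MotivicData A) {X : 𝒱.Obj} (D : A.A X) {V : 𝒱.Obj} (t : T.M V) :
    T.M (X.prod V) :=
  T.app (timesCorr A V D) t

/-- The number `⟨D × t, E × r⟩`. -/
noncomputable def cupTimes {T R : MotivicData A} (cup : Pairing T R) {X V : 𝒱.Obj} (D E : A.A X)
    (t : T.M V) (r : R.M V) : ℚ :=
  cup (X.prod V) (times T D t) (times R E r)

/-- `⟨D i × t, E j × r⟩` is `⟨t, r⟩` if `i = j` and `0` if `i ≠ j`. -/
def IsOrthogonal {T R : MotivicData A} (cup : Pairing T R) {X : 𝒱.Obj} (V : 𝒱.Obj) {J : Type}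
    (D E : J → A.A X) : Prop :=
  ∀ (i j : J) (t : T.M V) (r : R.M V), (i = j → cupTimes cup (D i) (E j) t r = cup V t r) ∧
    (i ≠ j → cupTimes cup (D i) (E j) t r = 0)

/-- There are finitely many cycles `D j`, `E j` on `X` such that for all theories `T` as in
`IsRelative` (for all `φ` and all polynomials `χ` with roots in `B`) `T (X × V)` is the direct sum
of the `D j × T (V)`, and also the direct sum of the `E j × T (V)`, and such that `IsOrthogonal` holds
for all pairings for which transposes are adjoint. -/
def Decomposes (F : ∀ X : 𝒱.Obj, X ⟶ X) (q : ℕ) (B : Set K) [CharZero K] (X V : 𝒱.Obj) : Prop :=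
  ∃ (J : Type) (_ : Fintype J) (deg deg' : J → ℕ) (D E : J → A.A X),
    (∀ j, A.Deg (deg j) (D j) ∧ A.Deg (deg' j) (E j)) ∧
    (∀ (T : MotivicData A) (φ : ∀ X, T.M X →ₗ[ℚ] T.M X) (χ : ℚ[X]), χ.coeff 0 ≠ 0 →
      (∀ ρ : K, aeval ρ χ = 0 → ρ ∈ B) → IsRelative T φ F q χ →
        HasKunneth T X V deg D ∧ HasKunneth T X V deg' E) ∧
    ∀ (T R : MotivicData A), IsMotivic T → IsMotivic R → ∀ cup : Pairing T R, IsAdjoint cup →
      IsOrthogonal cup V D E

/-- The conclusions for the product `V` of the `X i` with `i ∈ L` and of `Z`. -/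
structure Conclusions (F : ∀ X : 𝒱.Obj, X ⟶ X) (q : ℕ) (B : Set K) [CharZero K] {ι : Type}
    (X : ι → 𝒱.Obj) (Z : 𝒱.Obj) {T R : MotivicData A} (cup : Pairing T R) (e : ℤ)
    (L : List ι) : Prop where
  perfect : ∀ n : ℤ, IsPerfectIn cup e (productOf X Z L) n ↔
    ∀ l : ℤ, n - dimension X L ≤ l → l ≤ n → IsPerfectIn cup e Z l
  decomposes : ∀ i, i ∉ L → Decomposes (A := A) F q B (X i) (productOf X Z L)

end geometry

/-- **Perfectness of the motivic pairings of products with cyclic coverings branched along
hyperplanes.** -/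
theorem result (c : ℕ) [Fact c.Prime] (κ : Type) [Field κ] [Fintype κ] [CharP κ c] {ι : Type}
    (C : ι → Covering κ) (f N lam : ℕ) (hC : IsSmallSystem C c f N lam)
    {𝒱 : VarClass κ} (A : TheoryData.{0, 0, 0} 𝒱 ℚ) [IsChow A] {K : Type} [Field K]
    [IsAlgClosed K] [CharZero K] (H : WeilTheoryData.{0, 0, 0} A K) [IsWeil H] (τ : K →+* ℂ)
    (F : ∀ X : 𝒱.Obj, X ⟶ X) (X : ι → 𝒱.Obj) (Z : 𝒱.Obj) (χ : ℚ[X])
    (h : IsCoveringSystem C N lam H τ F X Z χ) (hnil : ∀ L, Nilpotence H (productOf X Z L))
    (T R : MotivicData A) (φT : ∀ X, T.M X →ₗ[ℚ] T.M X) (φR : ∀ X, R.M X →ₗ[ℚ] R.M X)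
    (hT : IsRelative T φT F (Fintype.card κ) χ) (hR : IsRelative R φR F (Fintype.card κ) χ)
    (cup : Pairing T R) (hcup : IsAdjoint cup) (e : ℤ) (L : List ι) (hL : L.Nodup) :
    Conclusions F (Fintype.card κ) {ρ : K | aeval ρ χ = 0} X Z cup e L := by
  obtain ⟨hf, hC, hN, hdN, hsmall⟩ := hC
  obtain ⟨hstd, hfrob, hprod, hmodel, hpol, halg, hχ0, hbase⟩ := h
  have hfin := hstd.finite
  have hf0 : 0 < f := by
    rcases Nat.eq_zero_or_pos f with h | h
    · rw [h, pow_zero] at hf
      have := Fintype.one_lt_card (α := κ)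
      omega
    · exact h
  choose g T' hσT hgT hT' hcov hpure using hmodel
  have hsmall' : ∀ I : Finset ι, I.Nonempty → Pool.Agent.N876.UV.SmallI c f N lam
      (fun i => (C i).N) (fun i => (C i).n) (fun i => (C i).s) (fun i => (C i).a) I := by
    intro I hI j hj
    obtain ⟨u, hu, hlt⟩ := hsmall I hI j hj
    refine ⟨u, hu, Pool.Agent.N876.UV.weight_conv' hf0 hN hdN I
      (fun i => ∑ k, ∑ t ∈ range f, (u * j i * (C i).a k * c ^ t) % (C i).N) ?_⟩
    refine lt_of_le_of_lt (le_of_eq ?_) hlt
    congr 1
    refine sum_congr rfl fun i _ => ?_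
    unfold Covering.weight
    push_cast
    rfl
  have hcov' : ∀ i, Pool.Agent.N876.TC.IsCov (C i).N (C i).l (C i).a (C i).z
      ((ofHom (H.pull (F (X i)))).restrict (hσT i)) ((ofHom (H.pull (g i))).restrict (hgT i)) :=
    fun i => ⟨(hcov i).commute, (hcov i).order, (hcov i).invariants,
      fun L _ _ _ t => (hcov i).lefschetz L t⟩
  have hres : ∀ SZ, Pool.Agent.N876.FL.OtherOK τ (Fintype.card κ) N lam SZ →
      Pool.Agent.N876.FL.NoResF (Fintype.card κ : K)
        (fun i => {α | Module.End.HasEigenvalue
          ((ofHom (H.pull (F (X i)))).restrict (hσT i)) α}) SZ :=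
    fun SZ hSZ => Pool.Agent.N876.FL.nores_cov hN (fun i => (hC i).two_le) hdN κ hf
      (fun i => (hC i).root) (fun i => (C i).l) (fun i => (C i).a) (fun i => (hC i).coprime) τ
      hcov' hsmall' hpure hSZ
  have htw : ∀ L : List ι, productOf X Z L = Pool.Agent.N876.CG.tw X Z L := by
    intro L
    induction L with
    | nil => rfl
    | cons i L ih => rw [productOf, Pool.Agent.N876.CG.tw, ih]
  have hdim : ∀ L : List ι, dimension X L = Pool.Agent.N876.CG.dims X L := by
    intro L
    induction L with
    | nil => rfl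
    | cons i L ih => rw [dimension, Pool.Agent.N876.CG.dims, ih]
  have hq0 : Fintype.card κ ≠ 0 := Fintype.card_ne_zero
  have hsys : Pool.Agent.N876.CG.Cr H F (Fintype.card κ) X Z
      (fun i => {α | Module.End.HasEigenvalue
          ((ofHom (H.pull (F (X i)))).restrict (hσT i)) α}) {ρ | aeval ρ χ = 0} :=
    { std := isStandard_bridge hstd
      one_lt := Fintype.one_lt_card
      frob := fun X => isFrobenius_bridge (hfrob X)
      prod := hprod
      cg := fun i => ⟨T' i, hσT i, hT' i, fun α hα => hα⟩
      int := fun i α hα => Pool.Agent.N876.CG.int_cov hN (fun i => (hC i).two_le) hdN κ hf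
        (fun i => (hC i).root) (fun i => (C i).l) (fun i => (C i).a) (fun i => (hC i).coprime) τ
        hcov' hsmall' hpure i α hα
      ne := fun i α hα h0 => by
        have h1 := hpure i α hα
        rw [h0, map_zero, norm_zero, zero_pow two_ne_zero] at h1
        have h2 : (0 : ℝ) < (Fintype.card κ : ℝ) := by exact_mod_cast Nat.pos_of_ne_zero hq0
        exact (pow_pos h2 _).ne h1
      intZ := fun β hβ => Pool.Agent.N876.CG.integral_of_emb τ (halg _ ⟨β, hβ, rfl⟩)
      res := by
        have himg : (τ '' {γ | ∃ β ρ, (Pool.Agent.W484.CH.frob H (F Z)).HasEigenvalue β ∧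
            ρ ∈ {ρ : K | aeval ρ χ = 0} ∧ γ = β * ρ}) = productsOf (H.pull (F Z)) χ τ := by
          ext b
          constructor
          · rintro ⟨_, ⟨β, ρ, hβ, hρ, rfl⟩, rfl⟩
            exact ⟨β, ρ, hβ, hρ, rfl⟩
          · rintro ⟨β, ρ, hβ, hρ, rfl⟩
            exact ⟨_, ⟨β, ρ, hβ, hρ, rfl⟩, rfl⟩
        refine hres _ ⟨?_, ?_⟩
        · rintro _ ⟨β, ρ, hβ, hρ, rfl⟩
          exact hbase.1 _ ⟨β, ρ, hβ, hρ, rfl⟩
        · rcases hbase.2 with h | h
          · left
            rw [himg]
            exact h
          · right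
            rintro _ ⟨β, ρ, hβ, hρ, rfl⟩
            exact h _ ⟨β, ρ, hβ, hρ, rfl⟩
      res1 := hres _ (Pool.Agent.N876.FL.otherOK_one τ _ _ _) }
  have hrel : ∀ (T : MotivicData A) (φ : ∀ X, T.M X →ₗ[ℚ] T.M X) (χ : ℚ[X]),
      IsRelative T φ F (Fintype.card κ) χ →
      Pool.Agent.N876.CG.RelTheory (toCorr T) φ F (Fintype.card κ) χ := fun T φ χ hT =>
    { corr := toCorr_isCorrTheory hT.motivic
      comm := hT.comm
      power := fun X n t ht => ⟨1, by
        rw [pow_one, LinearMap.sub_apply, Module.End.mul_apply, LinearMap.smul_apply,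
          Module.End.one_apply, sub_eq_zero]
        exact hT.power ht⟩
      poly := fun X n t ht => hT.root ht }
  have hnil' : ∀ (T : MotivicData A), IsMotivic T → ∀ L,
      Pool.Agent.N876.CG.NilT H (toCorr T) (Pool.Agent.N876.CG.tw X Z L) := fun T hT L =>
    Pool.Agent.N876.CG.nilT_of (toCorr_isCorrTheory hT) (by
      rw [← htw L]; exact nilpotence_bridge (hnil L))
  have hadj : ∀ (T R : MotivicData A) (cup : Pairing T R), IsAdjoint cup →
      Pool.Agent.N876.CG.Adj (toCorr T) (toCorr R) cup := fun T R cup h => h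
  refine ⟨fun n => ?_, fun i hi => ?_⟩
  · rw [htw L, hdim L]
    refine Pool.Agent.N876.CG.dims_induct (fun V n => IsPerfectIn cup e V n)
      (fun i L hi hL => ?_) hL n
    obtain ⟨J, hJ, deg, D, E, h1, h2, h2', h3⟩ := hsys.step2 hi hL
    have h4 := h3 _ φT χ hχ0 (fun ρ hρ => hρ) (hrel T φT χ hT) (hnil' T hT.motivic (i :: L))
    have h5 := h3 _ φR χ hχ0 (fun ρ hρ => hρ) (hrel R φR χ hR) (hnil' R hR.motivic (i :: L))
    refine ⟨J, fun j => (X i).dim - deg j, fun j => Nat.sub_le _ _, fun l hl => ?_,
      fun n => Pool.Agent.N876.CG.perf_deg (toCorr_isCorrTheory hT.motivic)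
        (toCorr_isCorrTheory hR.motivic) (hadj T R cup hcup) h1 h4.1 h5.2 e n⟩
    obtain ⟨j, hj⟩ := Pool.Agent.N876.CG.exists_deg_big (hpol i) h2
      (l := (X i).dim - l) (Nat.sub_le _ _)
    exact ⟨j, by beta_reduce; omega⟩
  · rw [htw L]
    obtain ⟨J, hJ, deg, D, E, h1, h2, h2', h3⟩ := hsys.step2 hi hL
    refine ⟨J, hJ, deg, fun j => (X i).dim - deg j, D, E, fun j => ⟨h1.left j,
      (Pool.Agent.N876.CG.IsDual.exch h1).left j⟩, fun T φ χ hχ0 hχ hT =>
      h3 _ φ χ hχ0 hχ (hrel T φ χ hT) (hnil' T hT.motivic (i :: L)), ?_⟩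
    intro T R hT hR cup hcup i' j t r
    have h6 := Pool.Agent.N876.CG.cup_ext (toCorr_isCorrTheory hR) (hadj T R cup hcup) h1 i' j t r
    refine ⟨fun hij => ?_, fun hij => ?_⟩
    · rw [if_pos hij] at h6
      exact h6
    · rw [if_neg hij] at h6
      exact h6

end Pool.Agent.Results.MP_a9d3bd_ag.HyperplaneCoverings
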